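import Pool.Agent.FGT.Stmts

namespace Pool.Agent.FGT.H73

open scoped Classical in
theorem foq_aux {G Q : Type*} [Group G] [Group Q] (f : G →* Q) (F : Finset G) (s' : G) (q : Q) :
    (F.filter (fun g => f g = q)).card - (F.filter (fun g => f g = f s' * q)).card ≤
      (F.filter (fun g => f g = q ∧ s' * g ∉ F)).card := by
  have h1 : (F.filter (fun g => f g = q)).card =
      (F.filter (fun g => f g = q ∧ s' * g ∈ F)).card +
        (F.filter (fun g => f g = q ∧ s' * g ∉ F)).card := by
    rw [← Finset.card_union_of_disjoint]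
    · congr 1
      ext g
      simp only [Finset.mem_filter, Finset.mem_union]
      tauto
    · rw [Finset.disjoint_left]
      intro g hg hg'
      simp only [Finset.mem_filter] at hg hg'
      tauto
  have h2 : (F.filter (fun g => f g = q ∧ s' * g ∈ F)).card ≤
      (F.filter (fun g => f g = f s' * q)).card := by
    apply Finset.card_le_card_of_injOn (fun g => s' * g)
    · intro g hg
      simp only [Finset.coe_filter, Set.mem_setOf_eq] at hg ⊢
      refine ⟨hg.2.2, ?_⟩
      rw [map_mul, hg.2.1]
    · intro g _ g' _ h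
      exact mul_left_cancel h
  omega

open scoped Classical in
theorem foq : FoqStmt := by
  intro G Q _ _ f hf hG S ε hε
  have hr : ∀ q : Q, ∃ g : G, f g = q := hf
  choose r hr using hr
  have hε' : 0 < ε / (S.card + 1) := by positivity
  obtain ⟨F, hFne, hF⟩ := hG (S.image r) (ε / (S.card + 1)) hε'
  have hNpos : 0 < F.card := Finset.card_pos.mpr hFne
  let a : Q → ℕ := fun q => (F.filter (fun g => f g = q)).card
  have haN : ∀ q, a q ≤ F.card := fun q => Finset.card_le_card (Finset.filter_subset _ _)
  let L : ℕ → Finset Q := fun k => (F.image f).filter (fun q => k ≤ a q)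
  have hLmem : ∀ k, 1 ≤ k → ∀ q, q ∈ L k ↔ k ≤ a q := by
    intro k hk q
    simp only [L, Finset.mem_filter, Finset.mem_image]
    constructor
    · exact fun h => h.2
    · intro h
      refine ⟨?_, h⟩
      have : 0 < a q := by omega
      obtain ⟨g, hg⟩ := Finset.card_pos.mp this
      simp only [Finset.mem_filter] at hg
      exact ⟨g, hg.1, hg.2⟩
  -- sum of the sizes
  have hsum : ∑ k ∈ Finset.Icc 1 F.card, (L k).card = F.card := by
    have h1 : ∀ k ∈ Finset.Icc 1 F.card, (L k).card =
        ∑ q ∈ F.image f, if k ≤ a q then 1 else 0 := by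
      intro k _
      rw [Finset.card_filter]
    rw [Finset.sum_congr rfl h1, Finset.sum_comm]
    have h2 : ∀ q ∈ F.image f, (∑ k ∈ Finset.Icc 1 F.card, if k ≤ a q then 1 else 0) = a q := by
      intro q _
      rw [← Finset.card_filter]
      have : (Finset.Icc 1 F.card).filter (fun k => k ≤ a q) = Finset.Icc 1 (a q) := by
        ext k
        simp only [Finset.mem_filter, Finset.mem_Icc]
        have := haN q
        omega
      rw [this, Nat.card_Icc]
      omega
    rw [Finset.sum_congr rfl h2]
    exact (Finset.card_eq_sum_card_image f F).symm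
  -- boundaries
  have hbd : ∀ s ∈ S, ∑ k ∈ Finset.Icc 1 F.card, ((L k).filter (fun q => s * q ∉ L k)).card ≤
      (F.filter (fun g => r s * g ∉ F)).card := by
    intro s _
    have h1 : ∀ k ∈ Finset.Icc 1 F.card, ((L k).filter (fun q => s * q ∉ L k)).card =
        ∑ q ∈ F.image f, if k ≤ a q ∧ ¬ k ≤ a (s * q) then 1 else 0 := by
      intro k hk
      rw [← Finset.card_filter]
      congr 1
      ext q
      have hk1 := (Finset.mem_Icc.mp hk).1
      simp only [L, Finset.mem_filter]
      have := hLmem k hk1 (s * q)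
      simp only [L, Finset.mem_filter] at this
      constructor
      · rintro ⟨⟨h1, h2⟩, h3⟩
        exact ⟨h1, h2, fun h => h3 (this.mpr h)⟩
      · rintro ⟨h1, h2, h3⟩
        exact ⟨⟨h1, h2⟩, fun h => h3 (this.mp h)⟩
    rw [Finset.sum_congr rfl h1, Finset.sum_comm]
    have h2 : ∀ q ∈ F.image f, (∑ k ∈ Finset.Icc 1 F.card,
        if k ≤ a q ∧ ¬ k ≤ a (s * q) then 1 else 0) ≤
          (F.filter (fun g => f g = q ∧ r s * g ∉ F)).card := by
      intro q _
      rw [← Finset.card_filter]
      have h3 : ((Finset.Icc 1 F.card).filter (fun k => k ≤ a q ∧ ¬ k ≤ a (s * q))) ⊆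
          Finset.Ioc (a (s * q)) (a q) := by
        intro k hk
        simp only [Finset.mem_filter, Finset.mem_Icc, Finset.mem_Ioc] at hk ⊢
        omega
      refine (Finset.card_le_card h3).trans ?_
      rw [Nat.card_Ioc]
      have := foq_aux f F (r s) q
      rw [hr s] at this
      exact this
    refine (Finset.sum_le_sum h2).trans ?_
    have h4 : (F.filter (fun g => r s * g ∉ F)).card =
        ∑ q ∈ F.image f, ((F.filter (fun g => r s * g ∉ F)).filter (fun g => f g = q)).card := by
      apply Finset.card_eq_sum_card_fiberwise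
      intro g hg
      exact Finset.mem_coe.mpr (Finset.mem_image_of_mem f (Finset.mem_filter.mp hg).1)
    rw [h4]
    apply Finset.sum_le_sum
    intro q _
    apply Finset.card_le_card
    intro g hg
    simp only [Finset.mem_filter] at hg ⊢
    tauto
  by_contra hcon
  push Not at hcon
  have hk : ∀ k ∈ Finset.Icc 1 F.card, ε * ((L k).card : ℝ) ≤
      ∑ s ∈ S, (((L k).filter (fun q => s * q ∉ L k)).card : ℝ) := by
    intro k _
    rcases Finset.eq_empty_or_nonempty (L k) with he | hne
    · rw [he]; simp
    · obtain ⟨s, hs, hlt⟩ := hcon (L k) hne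
      have h5 : {g : Q | g ∈ L k ∧ s * g ∉ L k}.ncard =
          ((L k).filter (fun q => s * q ∉ L k)).card := by
        rw [← Set.ncard_coe_finset]
        congr 1
        ext q
        simp
      rw [h5] at hlt
      refine hlt.le.trans ?_
      exact Finset.single_le_sum (f := fun s => (((L k).filter (fun q => s * q ∉ L k)).card : ℝ))
        (fun i _ => Nat.cast_nonneg _) hs
  have hA : ε * (F.card : ℝ) ≤ ∑ k ∈ Finset.Icc 1 F.card,
      ∑ s ∈ S, (((L k).filter (fun q => s * q ∉ L k)).card : ℝ) := by
    have : ε * (F.card : ℝ) = ∑ k ∈ Finset.Icc 1 F.card, ε * ((L k).card : ℝ) := by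
      rw [← Finset.mul_sum]
      congr 1
      exact_mod_cast hsum.symm
    rw [this]
    exact Finset.sum_le_sum hk
  rw [Finset.sum_comm] at hA
  have hB : ∀ s ∈ S, ∑ k ∈ Finset.Icc 1 F.card,
      (((L k).filter (fun q => s * q ∉ L k)).card : ℝ) ≤ ε / (S.card + 1) * F.card := by
    intro s hs
    have h6 := hF (r s) (Finset.mem_image_of_mem r hs)
    have h7 : {g : G | g ∈ F ∧ r s * g ∉ F}.ncard = (F.filter (fun g => r s * g ∉ F)).card := by
      rw [← Set.ncard_coe_finset]
      congr 1
      ext q
      simp
    rw [h7] at h6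
    refine le_trans ?_ h6
    exact_mod_cast hbd s hs
  have hC := Finset.sum_le_sum hB
  rw [Finset.sum_const, nsmul_eq_mul] at hC
  have hD : ε * (F.card : ℝ) ≤ S.card * (ε / (S.card + 1) * F.card) := hA.trans hC
  have hE : (S.card : ℝ) * (ε / (S.card + 1) * F.card) < ε * F.card := by
    have hc : (0 : ℝ) < F.card := by exact_mod_cast hNpos
    have h8 : (S.card : ℝ) * (ε / (S.card + 1) * F.card) =
        ε * F.card * (S.card / (S.card + 1)) := by ring
    rw [h8]
    have h9 : (S.card : ℝ) / (S.card + 1) < 1 := by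
      rw [div_lt_one (by positivity)]
      linarith
    have h10 : 0 < ε * (F.card : ℝ) := by positivity
    nlinarith
  linarith

end Pool.Agent.FGT.H73
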