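import Pool.Agent.FGT.Stmts
import Pool.Agent.FGT.Cnt

/-!
FGT, row FIN: the main theorem from the reduction and the small supports.
-/

namespace Pool.Agent.FGT.H73

open Filter Topology Pool.Agent.H22.CIG Pool.Agent.H67.CIP Pool.Agent.H50.CIG MeasureTheory

universe u v

theorem nlfs_of {G : Type u} [Group G] (h : ∀ K : Subgroup G, LocFin K → (K : Set G).Finite) :
    NLFS G := by
  intro K hK
  apply h
  intro s hs
  apply hK
  · rw [Subgroup.closure_le]
    exact fun x hx => hs x hx
  · exact ⟨s, rfl⟩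

theorem locFin_of {G : Type u} [Group G] (h : NLFS G) (K : Subgroup G) (hK : LocFin K) :
    (K : Set G).Finite := by
  apply h
  rintro H hH ⟨s, rfl⟩
  apply hK
  intro x hx
  exact hH (Subgroup.subset_closure hx)

theorem fc_eq_bot {L : Type u} [Group L] (h : Good L) : ∀ a : L, a ≠ 1 → a ∉ fc L := by
  intro a ha hfc
  have h1 := (mem_fc a).mp hfc
  have h2 : ((Subgroup.centralizer {a} : Subgroup L) : Set L).Finite := by
    refine (h.fcen a ha).subset fun x hx => ?_
    exact (Subgroup.mem_centralizer_singleton_iff.mp hx)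
  have : Finite (Subgroup.centralizer {a} : Subgroup L) := h2
  have h3 := finite_of_finiteIndex (Subgroup.centralizer {a} : Subgroup L)
  have h4 := h.inf
  exact not_finite L

theorem not_ci {L : Type u} [Group L] (h : Good L) : ¬ CI L := by
  rintro ⟨A, B, hA, hB, hAB⟩
  obtain ⟨b, hb, hb1⟩ : ∃ b ∈ B, b ≠ 1 := by
    by_contra hcon
    push Not at hcon
    apply hB
    exact (Set.finite_singleton (1 : L)).subset fun x hx => hcon x hx
  exact hA ((h.fcen b hb1).subset fun a ha => hAB a ha b hb)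

theorem fin (hFOE : FoeStmt.{u}) (hRDL : RdlStmt.{u, v}) (hINM : InmStmt.{u, v}) :
    FinStmt.{u, v} := by
  intro X _ _ _ T hT G _ _ _ p hinf hfol
  by_contra hcon
  push Not at hcon
  obtain ⟨hCI, hlf⟩ := hcon
  have hnl : NLFS G := nlfs_of fun K hK => by
    exact hlf K hK
  obtain ⟨L, gL, i, hfaith, ⟨pL⟩, hgood, hfolL⟩ := hRDL X T G p hinf hCI hnl hfol
  have hcount : Countable L := countable_of_fg hgood.fg
  obtain ⟨Ω, hΩ, hF⟩ := hFOE L hcount hfolL
  rcases pL.main hT Ω hΩ hF (by
    intro m hm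
    obtain ⟨a, ha, ha'⟩ := hINM X T L pL hgood m hm (1 / 3) (by norm_num)
    exact ⟨a, fc_eq_bot hgood a ha, ha'⟩) with h | ⟨K, hK, hK'⟩
  · exact not_ci hgood h
  · exact hK' (locFin_of hgood.nlfs K hK)

end Pool.Agent.FGT.H73
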